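import Mathlib
import Pool.Agent.K3h20.CR.StmD

/-!
# Project CR, brick DAT (MP_8f2e1c_an, owner helper20): the rational map gives the data.
-/

set_option autoImplicit false

open Set Filter Topology MeasureTheory Metric

namespace Pool.Agent.K3h74.CR

open Pool.Agent.H762R2.Rt Pool.Agent.K3h20.CR

theorem rr_der (P Q : Polynomial ℂ) (y w : ℂ) (hP : P.eval w ≠ 0) (hQ : Q.eval w ≠ 0) :
    HasDerivAt (rr P Q y) (gg P Q w * rr P Q y w) w := by
  unfold rr gg wro
  have h := ((P.hasDerivAt w).div (Q.hasDerivAt w) hQ).div_const (P.eval y / Q.eval y)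
  refine h.congr_deriv ?_
  simp only [Polynomial.eval_sub, Polynomial.eval_mul]
  by_cases hy : P.eval y / Q.eval y = 0
  · rw [hy]; simp
  · field_simp

theorem gg_diff (P Q : Polynomial ℂ) (w : ℂ) (hP : P.eval w ≠ 0) (hQ : Q.eval w ≠ 0) :
    DifferentiableAt ℂ (gg P Q) w := by
  unfold gg
  exact (wro P Q).differentiable.differentiableAt.div
    (P.differentiable.differentiableAt.mul Q.differentiable.differentiableAt)
    (mul_ne_zero hP hQ)

/-- the domain of `r` and `g` -/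
def Dom (P Q : Polynomial ℂ) : Set ℂ := {w | P.eval w ≠ 0 ∧ Q.eval w ≠ 0}

theorem isOpen_dom (P Q : Polynomial ℂ) : IsOpen (Dom P Q) :=
  (isOpen_ne_fun P.continuous continuous_const).inter
    (isOpen_ne_fun Q.continuous continuous_const)

theorem gg_deriv_y (P Q : Polynomial ℂ) (y : ℂ) (hP : P.eval y ≠ 0) (hQ : Q.eval y ≠ 0)
    (h0 : (wro P Q).eval y = 0) :
    HasDerivAt (gg P Q) ((Polynomial.derivative (wro P Q)).eval y / (P.eval y * Q.eval y)) y := by
  unfold gg
  have h := ((wro P Q).hasDerivAt y).div ((P.hasDerivAt y).mul (Q.hasDerivAt y))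
    (mul_ne_zero hP hQ)
  refine h.congr_deriv ?_
  rw [h0]
  simp only [Pi.mul_apply]
  field_simp
  ring

/-- the local data near the simple critical point -/
theorem near_ex (P Q : Polynomial ℂ) (y : ℂ) (hy : y ≠ 0) (hP : P.eval y ≠ 0) (hQ : Q.eval y ≠ 0)
    (h0 : (wro P Q).eval y = 0) (h1 : (Polynomial.derivative (wro P Q)).eval y ≠ 0) :
    ∃ (a : ℂ) (d B : ℝ), Near (rr P Q y) (gg P Q) y a d B := by
  set g := gg P Q with hg
  set r := rr P Q y with hr
  set a : ℂ := (Polynomial.derivative (wro P Q)).eval y / (P.eval y * Q.eval y) / 2 with ha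
  have hgy : g y = 0 := by rw [hg]; unfold gg; rw [h0]; simp
  have hg' : HasDerivAt g (2 * a) y := by
    have := gg_deriv_y P Q y hP hQ h0
    rw [ha]
    convert this using 1
    ring
  have hyU : y ∈ Dom P Q := ⟨hP, hQ⟩
  have hU : Dom P Q ∈ 𝓝 y := (isOpen_dom P Q).mem_nhds hyU
  have hgd : DifferentiableOn ℂ g (Dom P Q) := fun w hw =>
    (gg_diff P Q w hw.1 hw.2).differentiableWithinAt
  have hg1 : DifferentiableOn ℂ (dslope g y) (Dom P Q) :=
    (Complex.differentiableOn_dslope hU).2 hgd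
  have hg2 : DifferentiableOn ℂ (dslope (dslope g y) y) (Dom P Q) :=
    (Complex.differentiableOn_dslope hU).2 hg1
  have hg1y : dslope g y y = 2 * a := by rw [dslope_same]; exact hg'.deriv
  have hexp : ∀ w, g w - 2 * a * (w - y) = (w - y) ^ 2 * dslope (dslope g y) y w := by
    intro w
    have e1 := sub_smul_dslope g y w
    have e2 := sub_smul_dslope (dslope g y) y w
    rw [hg1y] at e2
    rw [hgy] at e1
    simp only [smul_eq_mul] at e1 e2
    linear_combination (-1 : ℂ) * e1 - (w - y) * e2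
  -- bound for the second slope
  have hc2 : ContinuousAt (dslope (dslope g y) y) y := (hg2.differentiableAt hU).continuousAt
  have hcr : ContinuousAt r y := (rr_der P Q y y hP hQ).continuousAt
  have hry : r y = 1 := by
    rw [hr]; unfold rr
    exact div_self (div_ne_zero hP hQ)
  set M2 : ℝ := ‖dslope (dslope g y) y y‖ + 1 with hM2
  have hM2p : 0 < M2 := by positivity
  have ev1 : ∀ᶠ w in 𝓝 y, ‖dslope (dslope g y) y w‖ < M2 :=
    hc2.norm.eventually_lt continuousAt_const (by simp only [hM2]; linarith)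
  have ev2 : ∀ᶠ w in 𝓝 y, ‖r w‖ < 2 :=
    hcr.norm.eventually_lt continuousAt_const (by rw [hry]; norm_num)
  obtain ⟨d0, hd0, hball⟩ := Metric.eventually_nhds_iff_ball.1 ((ev1.and ev2).and hU)
  set d : ℝ := min (d0 / 2) 1 with hd
  have hdp : 0 < d := by rw [hd]; positivity
  have hd1 : d ≤ 1 := min_le_right _ _
  have hin : ∀ u : ℂ, ‖u‖ ≤ d → ‖dslope (dslope g y) y (y + u)‖ < M2 ∧ ‖r (y + u)‖ < 2 ∧
      y + u ∈ Dom P Q := by
    intro u hu
    have hmem : y + u ∈ ball y d0 := by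
      rw [mem_ball, dist_eq_norm, add_sub_cancel_left]
      have : d ≤ d0 / 2 := min_le_left _ _
      linarith
    have := hball _ hmem
    exact ⟨this.1.1, this.1.2, this.2⟩
  have hgE : ∀ u : ℂ, ‖u‖ ≤ d → ‖g (y + u) - 2 * a * u‖ ≤ M2 * ‖u‖ ^ 2 := by
    intro u hu
    have e := hexp (y + u)
    rw [add_sub_cancel_left] at e
    rw [e, norm_mul, norm_pow, mul_comm]
    exact mul_le_mul_of_nonneg_right (hin u hu).1.le (by positivity)
  have hrD : ∀ u : ℂ, ‖u‖ ≤ d → HasDerivAt r (g (y + u) * r (y + u)) (y + u) := by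
    intro u hu
    exact rr_der P Q y (y + u) (hin u hu).2.2.1 (hin u hu).2.2.2
  have hgB : ∀ u : ℂ, ‖u‖ ≤ d → ‖g (y + u)‖ ≤ (M2 + 2 * ‖a‖) * ‖u‖ := by
    intro u hu
    have h := hgE u hu
    have : ‖g (y + u)‖ ≤ ‖g (y + u) - 2 * a * u‖ + ‖2 * a * u‖ := by
      calc ‖g (y + u)‖ = ‖(g (y + u) - 2 * a * u) + 2 * a * u‖ := by rw [sub_add_cancel]
        _ ≤ _ := norm_add_le _ _
    have e2 : ‖2 * a * u‖ = 2 * ‖a‖ * ‖u‖ := by rw [norm_mul, norm_mul]; norm_num
    have : ‖u‖ ^ 2 ≤ ‖u‖ := by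
      rw [sq]; exact mul_le_of_le_one_right (norm_nonneg _) (hu.trans hd1)
    nlinarith [norm_nonneg u, norm_nonneg a]
  -- first bound for r
  have hshift : ∀ u : ℂ, ‖u‖ ≤ d → HasDerivAt (fun t : ℂ => r (y + t)) (g (y + u) * r (y + u)) u := by
    intro u hu
    have := (hrD u hu).comp_const_add y u
    exact this
  set N1 : ℝ := 2 * (M2 + 2 * ‖a‖) with hN1
  have hN1p : 0 < N1 := by positivity
  have hr1 : ∀ u : ℂ, ‖u‖ ≤ d → ‖r (y + u) - 1‖ ≤ N1 * ‖u‖ ^ 2 := by
    intro u hu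
    have hs : ∀ t ∈ closedBall (0 : ℂ) ‖u‖, HasDerivWithinAt (fun t : ℂ => r (y + t))
        (g (y + t) * r (y + t)) (closedBall (0 : ℂ) ‖u‖) t := by
      intro t ht
      rw [mem_closedBall_zero_iff] at ht
      exact (hshift t (ht.trans hu)).hasDerivWithinAt
    have hb : ∀ t ∈ closedBall (0 : ℂ) ‖u‖, ‖g (y + t) * r (y + t)‖ ≤ N1 * ‖u‖ := by
      intro t ht
      rw [mem_closedBall_zero_iff] at ht
      rw [norm_mul]
      have h2 := hgB t (ht.trans hu)
      have h3 := (hin t (ht.trans hu)).2.1.le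
      calc ‖g (y + t)‖ * ‖r (y + t)‖ ≤ ((M2 + 2 * ‖a‖) * ‖t‖) * 2 :=
            mul_le_mul h2 h3 (norm_nonneg _) (by positivity)
        _ ≤ N1 * ‖u‖ := by
            rw [hN1]
            have : 0 ≤ M2 + 2 * ‖a‖ := by positivity
            nlinarith
    have := (convex_closedBall (0 : ℂ) ‖u‖).norm_image_sub_le_of_norm_hasDerivWithin_le hs hb
      (mem_closedBall_self (norm_nonneg _)) (mem_closedBall_zero_iff.2 le_rfl)
    rw [add_zero, hry, sub_zero] at this
    calc _ ≤ _ := this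
      _ = _ := by ring
  set N2 : ℝ := 2 * M2 + 2 * ‖a‖ * N1 with hN2
  have hN2p : 0 < N2 := by positivity
  have hr2 : ∀ u : ℂ, ‖u‖ ≤ d → ‖r (y + u) - 1 - a * u ^ 2‖ ≤ N2 * ‖u‖ ^ 3 := by
    intro u hu
    have hs : ∀ t ∈ closedBall (0 : ℂ) ‖u‖, HasDerivWithinAt
        (fun t : ℂ => r (y + t) - a * t ^ 2)
        (g (y + t) * r (y + t) - 2 * a * t) (closedBall (0 : ℂ) ‖u‖) t := by
      intro t ht
      rw [mem_closedBall_zero_iff] at ht
      have h2 : HasDerivAt (fun t : ℂ => a * t ^ 2) (2 * a * t) t := by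
        have := (hasDerivAt_pow 2 t).const_mul a
        refine this.congr_deriv ?_
        norm_num; ring
      exact ((hshift t (ht.trans hu)).sub h2).hasDerivWithinAt
    have hb : ∀ t ∈ closedBall (0 : ℂ) ‖u‖, ‖g (y + t) * r (y + t) - 2 * a * t‖ ≤
        N2 * ‖u‖ ^ 2 := by
      intro t ht
      rw [mem_closedBall_zero_iff] at ht
      have h2 := hgE t (ht.trans hu)
      have h3 := (hin t (ht.trans hu)).2.1.le
      have h4 := hr1 t (ht.trans hu)
      have e : g (y + t) * r (y + t) - 2 * a * t =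
          (g (y + t) - 2 * a * t) * r (y + t) + 2 * a * t * (r (y + t) - 1) := by ring
      rw [e]
      have htd : ‖t‖ ≤ 1 := ht.trans (hu.trans hd1)
      have h5 : ‖2 * a * t * (r (y + t) - 1)‖ ≤ 2 * ‖a‖ * N1 * ‖t‖ ^ 2 := by
        rw [norm_mul, norm_mul, norm_mul, Complex.norm_ofNat]
        calc 2 * ‖a‖ * ‖t‖ * ‖r (y + t) - 1‖ ≤ 2 * ‖a‖ * 1 * (N1 * ‖t‖ ^ 2) := by
              gcongr
          _ = _ := by ring
      have h6 : ‖(g (y + t) - 2 * a * t) * r (y + t)‖ ≤ 2 * M2 * ‖t‖ ^ 2 := by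
        rw [norm_mul]
        calc _ ≤ (M2 * ‖t‖ ^ 2) * 2 := mul_le_mul h2 h3 (norm_nonneg _) (by positivity)
          _ = _ := by ring
      calc _ ≤ _ := norm_add_le _ _
        _ ≤ 2 * M2 * ‖t‖ ^ 2 + 2 * ‖a‖ * N1 * ‖t‖ ^ 2 := add_le_add h6 h5
        _ = N2 * ‖t‖ ^ 2 := by rw [hN2]; ring
        _ ≤ N2 * ‖u‖ ^ 2 := by gcongr
    have := (convex_closedBall (0 : ℂ) ‖u‖).norm_image_sub_le_of_norm_hasDerivWithin_le hs hb
      (mem_closedBall_self (norm_nonneg _)) (mem_closedBall_zero_iff.2 le_rfl)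
    simp only [add_zero, hry, sub_zero] at this
    have e : r (y + u) - 1 - a * u ^ 2 = r (y + u) - a * u ^ 2 - (1 - a * 0 ^ 2) := by ring
    rw [e]
    calc _ ≤ _ := this
      _ = _ := by ring
  refine ⟨a, d, max 1 (max M2 N2), hdp, le_max_left _ _, hy, ?_, ?_, hrD, ?_⟩
  · rw [ha]
    exact div_ne_zero (div_ne_zero h1 (mul_ne_zero hP hQ)) two_ne_zero
  · intro u hu
    refine (hr2 u hu).trans (mul_le_mul_of_nonneg_right ?_ (by positivity))
    exact (le_max_right _ _).trans (le_max_right _ _)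
  · intro u hu
    refine (hgE u hu).trans (mul_le_mul_of_nonneg_right ?_ (by positivity))
    exact (le_max_left _ _).trans (le_max_right _ _)

theorem good_ex (P Q : Polynomial ℂ) (hc : IsCoprime P Q) (y : ℂ)
    (hP : P.eval y ≠ 0) (hQ : Q.eval y ≠ 0)
    (h0 : (wro P Q).eval y = 0) (h1 : (Polynomial.derivative (wro P Q)).eval y ≠ 0)
    (hu : ∀ y' : ℂ, (wro P Q).eval y' = 0 →
      ‖P.eval y'‖ * ‖Q.eval y‖ = ‖P.eval y‖ * ‖Q.eval y'‖ → y' = y)
    (ρ₀ : ℝ) (hρ : 0 < ρ₀) (hρ1 : ρ₀ < 1) :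
    ∃ (ε d B c : ℝ), Good (rr P Q y) (gg P Q) y ρ₀ ε d B c := by
  set g := gg P Q with hg
  set r := rr P Q y with hr
  have hgy : g y = 0 := by rw [hg]; unfold gg; rw [h0]; simp
  have hyU : y ∈ Dom P Q := ⟨hP, hQ⟩
  have hU : Dom P Q ∈ 𝓝 y := (isOpen_dom P Q).mem_nhds hyU
  have hgd : DifferentiableOn ℂ g (Dom P Q) := fun w hw =>
    (gg_diff P Q w hw.1 hw.2).differentiableWithinAt
  have hg1 : DifferentiableOn ℂ (dslope g y) (Dom P Q) :=
    (Complex.differentiableOn_dslope hU).2 hgd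
  have hg1y : dslope g y y ≠ 0 := by
    rw [dslope_same, (gg_deriv_y P Q y hP hQ h0).deriv]
    exact div_ne_zero h1 (mul_ne_zero hP hQ)
  have hgs : ∀ w, g w = (w - y) * dslope g y w := by
    intro w
    have e1 := sub_smul_dslope g y w
    rw [hgy, smul_eq_mul, sub_zero] at e1
    exact e1.symm
  -- the open set
  set V : Set ℂ := Dom P Q ∩ (dslope g y) ⁻¹' {0}ᶜ with hV
  have hVo : IsOpen V := hg1.continuousOn.isOpen_inter_preimage (isOpen_dom P Q)
    isOpen_compl_singleton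
  set A : Set ℂ := {w | ρ₀ / 2 ≤ ‖w‖ ∧ ‖w‖ ≤ 2 / ρ₀} with hA
  have hAc : IsCompact A := by
    have h2 : A = closedBall (0 : ℂ) (2 / ρ₀) ∩ {w | ρ₀ / 2 ≤ ‖w‖} := by
      ext w
      simp only [hA, mem_ofPred_eq, mem_inter_iff, mem_closedBall_zero_iff]
      exact and_comm
    rw [h2]
    exact (isCompact_closedBall _ _).inter_right (isClosed_le continuous_const continuous_norm)
  set φ : ℂ → ℝ := fun w => ‖P.eval w‖ * ‖Q.eval y‖ - ‖P.eval y‖ * ‖Q.eval w‖ with hφ
  have hφc : Continuous φ :=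
    (P.continuous.norm.mul continuous_const).sub (continuous_const.mul Q.continuous.norm)
  have hcop : ∀ w, ¬ (P.eval w = 0 ∧ Q.eval w = 0) := by
    rintro w ⟨hp, hq⟩
    obtain ⟨s, t, hst⟩ := hc
    have := congrArg (Polynomial.eval w) hst
    rw [Polynomial.eval_add, Polynomial.eval_mul, Polynomial.eval_mul, hp, hq] at this
    simp at this
  have hnPy : 0 < ‖P.eval y‖ := norm_pos_iff.2 hP
  have hnQy : 0 < ‖Q.eval y‖ := norm_pos_iff.2 hQ
  have hφV : ∀ w, φ w = 0 → w ∈ V := by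
    intro w hw
    have hw' : ‖P.eval w‖ * ‖Q.eval y‖ = ‖P.eval y‖ * ‖Q.eval w‖ := by
      simp only [hφ] at hw; linarith
    have hpw : P.eval w ≠ 0 := by
      intro h
      rw [h, norm_zero, zero_mul] at hw'
      have : Q.eval w = 0 := by
        rcases mul_eq_zero.1 hw'.symm with h | h
        · exact absurd h hnPy.ne'
        · exact norm_eq_zero.1 h
      exact hcop w ⟨h, this⟩
    have hqw : Q.eval w ≠ 0 := by
      intro h
      rw [h, norm_zero, mul_zero] at hw'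
      rcases mul_eq_zero.1 hw' with h' | h'
      · exact hpw (norm_eq_zero.1 h')
      · exact hnQy.ne' h'
    refine ⟨⟨hpw, hqw⟩, ?_⟩
    simp only [mem_preimage, mem_compl_iff, mem_singleton_iff]
    intro hz
    by_cases hwy : w = y
    · rw [hwy] at hz; exact hg1y hz
    · have hgw : g w = 0 := by rw [hgs w, hz, mul_zero]
      rw [hg] at hgw
      unfold gg at hgw
      rcases div_eq_zero_iff.1 hgw with h | h
      · exact hwy (hu w h hw')
      · exact mul_ne_zero hpw hqw h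
  -- distance from zero of φ on the bad part
  obtain ⟨δ, hδ, hδb⟩ : ∃ δ : ℝ, 0 < δ ∧ ∀ w ∈ A \ V, δ ≤ |φ w| := by
    have hcomp : IsCompact (A \ V) := hAc.diff hVo
    rcases (A \ V).eq_empty_or_nonempty with he | hne
    · exact ⟨1, one_pos, fun w hw => by rw [he] at hw; exact absurd hw (notMem_empty _)⟩
    · obtain ⟨w0, hw0, hmin⟩ := hcomp.exists_isMinOn hne (hφc.abs.continuousOn)
      refine ⟨|φ w0|, abs_pos.2 fun h => hw0.2 (hφV w0 h), fun w hw => hmin hw⟩
  set K : Set ℂ := A ∩ {w | |φ w| ≤ δ / 2} with hK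
  have hKc : IsCompact K := hAc.inter_right (isClosed_le hφc.abs continuous_const)
  have hKV : K ⊆ V := by
    intro w hw
    by_contra hv
    have h2 := hδb w ⟨hw.1, hv⟩
    have h3 := hw.2
    simp only [mem_ofPred_eq] at h3
    linarith
  obtain ⟨M, hM⟩ := hAc.exists_bound_of_continuousOn
    (f := fun w => (‖P.eval y‖ * ‖Q.eval w‖ : ℝ))
    ((continuous_const.mul Q.continuous.norm).continuousOn)
  have hM' : ∀ w ∈ A, ‖P.eval y‖ * ‖Q.eval w‖ ≤ max M 1 := by
    intro w hw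
    have := hM w hw
    rw [Real.norm_of_nonneg (by positivity)] at this
    exact this.trans (le_max_left _ _)
  set M' := max M 1 with hM'def
  have hM'p : 0 < M' := lt_of_lt_of_le one_pos (le_max_right _ _)
  -- choice of ε
  set ε : ℝ := Real.log (1 + δ / (2 * M')) with hεdef
  have hεp : 0 < ε := Real.log_pos (by have : 0 < δ / (2 * M') := by positivity
                                       linarith)
  have hεe : Real.exp ε = 1 + δ / (2 * M') := Real.exp_log (by positivity)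
  have hnorm_r : ∀ w, ‖r w‖ = (‖P.eval w‖ * ‖Q.eval y‖) / (‖P.eval y‖ * ‖Q.eval w‖) := by
    intro w
    rw [hr]; unfold rr
    rw [norm_div, norm_div, norm_div, div_div_div_eq]
    ring
  have hSK : ∀ w ∈ A, Real.exp (-ε) ≤ ‖r w‖ → ‖r w‖ ≤ Real.exp ε → w ∈ K := by
    intro w hw h2 h3
    refine ⟨hw, ?_⟩
    simp only [mem_ofPred_eq]
    have hq : 0 < ‖P.eval y‖ * ‖Q.eval w‖ := by
      by_contra hneg
      have hz : ‖P.eval y‖ * ‖Q.eval w‖ = 0 := le_antisymm (not_lt.1 hneg) (by positivity)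
      rw [hnorm_r, hz, div_zero] at h2
      exact absurd h2 (not_le.2 (Real.exp_pos _))
    have hφw : φ w = (‖r w‖ - 1) * (‖P.eval y‖ * ‖Q.eval w‖) := by
      rw [hnorm_r, sub_mul, div_mul_cancel₀ _ hq.ne', one_mul]
    rw [hφw, abs_mul, abs_of_pos hq]
    have habs : |‖r w‖ - 1| ≤ δ / (2 * M') := by
      rw [abs_le]
      constructor
      · have hh : 1 - δ / (2 * M') ≤ Real.exp (-ε) := by
          rw [Real.exp_neg, hεe]
          have hx : 0 < δ / (2 * M') := by positivity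
          rw [← one_div, le_div_iff₀ (by positivity)]
          nlinarith
        linarith
      · rw [hεe] at h3; linarith
    calc |‖r w‖ - 1| * (‖P.eval y‖ * ‖Q.eval w‖) ≤ δ / (2 * M') * M' :=
          mul_le_mul habs (hM' w hw) hq.le (by positivity)
      _ = δ / 2 := by field_simp
  obtain ⟨δ', hδ', hδV⟩ := hKc.exists_cthickening_subset_open hVo hKV
  set K2 : Set ℂ := cthickening δ' K with hK2
  have hK2c : IsCompact K2 := hKc.cthickening
  obtain ⟨B1, hB1⟩ := hK2c.exists_bound_of_continuousOn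
    (hg1.continuousOn.mono (hδV.trans inter_subset_left))
  have hder : ContinuousOn (deriv g) (Dom P Q) :=
    ((hgd.analyticOnNhd (isOpen_dom P Q)).deriv).continuousOn
  obtain ⟨B2, hB2⟩ := hK2c.exists_bound_of_continuousOn
    (hder.mono (hδV.trans inter_subset_left))
  have hinv : ContinuousOn (fun w => (dslope g y w)⁻¹) K2 := by
    refine (hg1.continuousOn.mono (hδV.trans inter_subset_left)).inv₀ ?_
    intro w hw
    exact (hδV hw).2
  obtain ⟨B3, hB3⟩ := hK2c.exists_bound_of_continuousOn hinv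
  refine ⟨ε, δ', max 1 (max B1 B2), (max 1 B3)⁻¹, hρ, hρ1, hεp, hδ', le_max_left _ _,
    inv_pos.2 (lt_of_lt_of_le one_pos (le_max_left _ _)), ?_⟩
  intro w hw1 hw2 hw3 hw4
  have hwK : w ∈ K := hSK w ⟨hw1, hw2⟩ hw3 hw4
  have hwK2 : w ∈ K2 := self_subset_cthickening K hwK
  have hballK2 : closedBall w δ' ⊆ K2 := closedBall_subset_cthickening hwK δ'
  constructor
  · have hb := hB3 w hwK2
    have hne : dslope g y w ≠ 0 := (hδV hwK2).2
    rw [norm_inv] at hb
    have h3 : 0 < ‖dslope g y w‖ := norm_pos_iff.2 hne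
    have h4 : (max 1 B3)⁻¹ ≤ ‖dslope g y w‖ := by
      rw [inv_le_comm₀ (lt_of_lt_of_le one_pos (le_max_left _ _)) h3]
      exact hb.trans (le_max_right _ _)
    rw [hgs w, norm_mul, mul_comm]
    exact mul_le_mul_of_nonneg_left h4 (norm_nonneg _)
  · intro w' hw'
    have hw'K := hballK2 hw'
    have hw'D := (hδV hw'K).1
    refine ⟨?_, rr_der P Q y w' hw'D.1 hw'D.2, ?_, ?_⟩
    · rw [hr]; unfold rr
      exact div_ne_zero (div_ne_zero hw'D.1 hw'D.2) (div_ne_zero hP hQ)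
    · rw [hgs w', norm_mul, mul_comm]
      exact mul_le_mul_of_nonneg_right ((hB1 w' hw'K).trans
        ((le_max_left _ _).trans (le_max_right _ _))) (norm_nonneg _)
    · intro w'' hw''
      have hdiff : ∀ t ∈ closedBall w δ', DifferentiableAt ℂ g t := fun t ht =>
        gg_diff P Q t (hδV (hballK2 ht)).1.1 (hδV (hballK2 ht)).1.2
      have hbound : ∀ t ∈ closedBall w δ', ‖deriv g t‖ ≤ B2 := fun t ht => hB2 t (hballK2 ht)
      have := (convex_closedBall w δ').norm_image_sub_le_of_norm_deriv_le hdiff hbound hw'' hw'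
      refine this.trans (mul_le_mul_of_nonneg_right ?_ (norm_nonneg _))
      exact (le_max_right _ _).trans (le_max_right _ _)

theorem Near.mono {r g : ℂ → ℂ} {y a : ℂ} {d B d' B' : ℝ} (h : Near r g y a d B)
    (hd : 0 < d') (hdd : d' ≤ d) (hB : B ≤ B') : Near r g y a d' B' := by
  refine ⟨hd, h.hB.trans hB, h.hy, h.ha, ?_, ?_, ?_⟩
  · intro u hu
    exact (h.r_eq u (hu.trans hdd)).trans (mul_le_mul_of_nonneg_right hB (by positivity))
  · intro u hu
    exact h.r_der u (hu.trans hdd)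
  · intro u hu
    exact (h.g_eq u (hu.trans hdd)).trans (mul_le_mul_of_nonneg_right hB (by positivity))

theorem Good.mono {r g : ℂ → ℂ} {y : ℂ} {ρ₀ ε d B c d' B' : ℝ} (h : Good r g y ρ₀ ε d B c)
    (hd : 0 < d') (hdd : d' ≤ d) (hB : B ≤ B') : Good r g y ρ₀ ε d' B' c := by
  refine ⟨h.hρ, h.hρ1, h.hε, hd, h.hB.trans hB, h.hc, ?_⟩
  intro w h1 h2 h3 h4
  obtain ⟨h5, h6⟩ := h.low w h1 h2 h3 h4
  have hsub : closedBall w d' ⊆ closedBall w d := closedBall_subset_closedBall hdd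
  refine ⟨h5, fun w' hw' => ?_⟩
  obtain ⟨h7, h8, h9, h10⟩ := h6 w' (hsub hw')
  refine ⟨h7, h8, h9.trans (mul_le_mul_of_nonneg_right hB (norm_nonneg _)), fun w'' hw'' => ?_⟩
  exact (h10 w'' (hsub hw'')).trans (mul_le_mul_of_nonneg_right hB (norm_nonneg _))

/-- DAT: the rational map gives the data of the analytic part. -/
theorem t_dat : St_dat := by
  intro P Q hc y hy hP hQ h0 h1 hu ρ₀ hρ hρ1
  obtain ⟨a, d1, B1, hN⟩ := near_ex P Q y hy hP hQ h0 h1
  obtain ⟨ε, d2, B2, c, hG⟩ := good_ex P Q hc y hP hQ h0 h1 hu ρ₀ hρ hρ1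
  have hd1 := hN.hd
  have hd2 := hG.hd
  exact ⟨a, ε, min d1 d2, max B1 B2, c,
    Near.mono hN (lt_min hd1 hd2) (min_le_left _ _) (le_max_left _ _),
    Good.mono hG (lt_min hd1 hd2) (min_le_right _ _) (le_max_right _ _)⟩

end Pool.Agent.K3h74.CR
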